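import Mathlib
import Pool.Agent.Lib_helper90.FS.Defs

set_option autoImplicit false

namespace Pool.Agent.H90.FS

universe u

private theorem WD_of {κ : Type u} [Field κ] {H : Type u} [Group H] (h : H) (hh : h ≠ 1) :
    (MonoidAlgebra.of κ H h).coeff 1 = 0 := by
  classical
  rw [MonoidAlgebra.of_apply, MonoidAlgebra.coeff_single, Finsupp.single_apply, if_neg hh]

private theorem WD_one {κ : Type u} [Field κ] {H : Type u} [Group H] :
    (1 : MonoidAlgebra κ H).coeff 1 = 1 := by
  classical
  rw [MonoidAlgebra.one_def, MonoidAlgebra.coeff_single, Finsupp.single_apply, if_pos rfl]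

/-- the coefficient at one of a derivative of a word all of whose nonempty prefixes are outside `N` -/
private theorem WD_coeff {ι : Type} [DecidableEq ι] {A : ι → Type u} [∀ i, Group (A i)]
    {G : Type u} [Group G] (N : Subgroup G) [hN : N.Normal] (g : ∀ i, A i →* G)
    (e : ι) (κ : Type u) [Field κ]
    (δ : G → MonoidAlgebra κ (G ⧸ N))
    (hδ : ∀ x y, δ (x * y) = δ x + MonoidAlgebra.of κ _ (QuotientGroup.mk' N x) * δ y)
    (h0 : ∀ i, i ≠ e → ∀ a : A i, δ (g i a) = 0)
    (he : ∀ a : A e, δ (g e a) = MonoidAlgebra.of κ _ (QuotientGroup.mk' N (g e a)) - 1)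
    (T : List (Σ i, A i)) :
    (∀ U, U <+: T → U ≠ [] → (U.map fun l => g l.1 l.2).prod ∉ N) →
    (∀ b ∈ T.head?, b.1 ≠ e) →
    (δ ((T.map fun l => g l.1 l.2).prod)).coeff 1 = 0 := by
  induction T using List.reverseRecOn with
  | nil =>
    intro _ _
    have h1 : δ 1 = 0 := by
      have := hδ 1 1
      simp only [mul_one, map_one, one_mul] at this
      simpa using this
    simp [h1]
  | append_singleton T' b ih =>
    intro hpre hhead
    have ih' := ih (fun U hU hne => hpre U (hU.trans (List.prefix_append _ _)) hne) (by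
      intro c hc
      apply hhead c
      cases T' with
      | nil => simp at hc
      | cons d T'' => simpa using hc)
    rw [List.map_append, List.prod_append, hδ]
    simp only [List.map_cons, List.map_nil, List.prod_cons, List.prod_nil, mul_one]
    by_cases hb : b.1 = e
    · obtain ⟨i, b⟩ := b
      dsimp only at hb
      subst hb
      have hT' : T' ≠ [] := by
        rintro rfl
        exact hhead ⟨i, b⟩ (by simp) rfl
      have hn1 : (T'.map fun l => g l.1 l.2).prod ∉ N :=
        hpre T' (List.prefix_append _ _) hT'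
      have hn2 : ((T'.map fun l => g l.1 l.2).prod) * g i b ∉ N := by
        have := hpre (T' ++ [⟨i, b⟩]) (List.prefix_refl _) (by simp)
        simpa using this
      rw [he, mul_sub, mul_one, ← map_mul, ← map_mul, MonoidAlgebra.coeff_add,
        MonoidAlgebra.coeff_sub, Finsupp.add_apply, Finsupp.sub_apply, ih', WD_of, WD_of]
      · simp
      · exact fun h => hn1 ((QuotientGroup.eq_one_iff _).1 h)
      · exact fun h => hn2 ((QuotientGroup.eq_one_iff _).1 h)
    · rw [h0 b.1 hb b.2, mul_zero, add_zero]
      exact ih'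

/-- The good words. -/
private def WD_good {ι : Type} {A : ι → Type u} [∀ i, Group (A i)]
    (K : ℕ → Subgroup (Monoid.CoprodI A)) (S : Finset ι) (L : List (Σ i : S, A i)) : Prop :=
  L ≠ [] ∧ (∀ l ∈ L, l.2 ≠ 1) ∧ L.IsChain (fun l l' => l.1 ≠ l'.1) ∧
    ∀ k, (L.map fun l => (Monoid.CoprodI.of (i := (l.1 : ι)) l.2 : Monoid.CoprodI A)).prod ∈ K k

private theorem WD_lift {ι : Type} {A : ι → Type u} [∀ i, Group (A i)] (S : Finset ι)
    (L : List (Σ i : S, A i)) :
    Monoid.CoprodI.lift (M := fun i : S => A i)
      (fun i => Monoid.CoprodI.of (M := A) (i := (i : ι)))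
      ((L.map fun l => (Monoid.CoprodI.of (M := fun i : S => A i) l.2)).prod) =
    (L.map fun l => (Monoid.CoprodI.of (i := (l.1 : ι)) l.2 : Monoid.CoprodI A)).prod := by
  rw [map_list_prod, List.map_map]
  congr 1

theorem word {ι : Type} [DecidableEq ι] {A : ι → Type u} [∀ i, Group (A i)]
    (K : ℕ → Subgroup (Monoid.CoprodI A)) (hK : ∀ k, (K k).Normal) (hK' : ∀ k, K (k + 1) ≤ K k)
    (S : Finset ι) (hS : ∀ i ∈ S, ∀ a : A i, (∀ k, Monoid.CoprodI.of a ∈ K k) → a = 1)
    (x : Monoid.CoprodI fun i : S => A i) (hx : x ≠ 1)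
    (hxK : ∀ k, Monoid.CoprodI.lift (M := fun i : S => A i)
      (fun i => Monoid.CoprodI.of (i := (i : ι))) x ∈ K k) :
    ∃ x' : Monoid.CoprodI fun i : S => A i,
      (∀ k, Monoid.CoprodI.lift (M := fun i : S => A i)
        (fun i => Monoid.CoprodI.of (i := (i : ι))) x' ∈ K k) ∧
      ∃ e ∈ S, ∃ k₀ : ℕ, ∀ k, k₀ ≤ k → ∀ (κ : Type u) [Field κ]
        (δ : Monoid.CoprodI A → MonoidAlgebra κ (Monoid.CoprodI A ⧸ K k)),
        (∀ x y, δ (x * y) = δ x + MonoidAlgebra.of κ _ (QuotientGroup.mk' (K k) x) * δ y) →
        (∀ i, i ≠ e → ∀ a : A i, δ (Monoid.CoprodI.of a) = 0) →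
        (∀ a : A e, δ (Monoid.CoprodI.of a) =
          MonoidAlgebra.of κ _ (QuotientGroup.mk' (K k) (Monoid.CoprodI.of a)) - 1) →
        δ (Monoid.CoprodI.lift (M := fun i : S => A i)
          (fun i => Monoid.CoprodI.of (i := (i : ι))) x') ≠ 0 := by
  classical
  have hanti : Antitone K := antitone_nat_of_succ_le hK'
  -- a good word of minimal length
  have hex : ∃ n, ∃ L : List (Σ i : S, A i), L.length = n ∧ WD_good K S L := by
    let w := Monoid.CoprodI.Word.equiv (M := fun i : S => A i) x
    have hw : w.prod = x := Monoid.CoprodI.Word.equiv.symm_apply_apply x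
    refine ⟨_, w.toList, rfl, ?_, fun l hl => w.ne_one l hl, w.chain_ne, ?_⟩
    · intro h
      apply hx
      rw [← hw]
      simp [Monoid.CoprodI.Word.prod, h]
    · intro k
      rw [← WD_lift]
      have := hxK k
      rw [← hw] at this
      exact this
  obtain ⟨L, hLn, hL⟩ := Nat.find_spec hex
  have hmin : ∀ L', WD_good K S L' → L.length ≤ L'.length := by
    intro L' hL'
    rw [hLn]
    exact Nat.find_min' hex ⟨L', rfl, hL'⟩
  obtain ⟨hne, hone, hchain, hmem⟩ := hL
  cases L with
  | nil => exact absurd rfl hne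
  | cons a T =>
    refine ⟨_, fun k => (WD_lift S (a :: T)).symm ▸ hmem k, a.1, a.1.2, ?_⟩
    -- the head
    have hak : ∃ k, (Monoid.CoprodI.of (i := (a.1 : ι)) a.2 : Monoid.CoprodI A) ∉ K k := by
      by_contra hcon
      push Not at hcon
      exact hone a (by simp) (hS a.1 a.1.2 a.2 hcon)
    obtain ⟨k₁, hk₁⟩ := hak
    -- the prefixes of the tail
    have hTk : ∀ q : Fin T.length, ∃ k, ((T.take (q + 1)).map fun l =>
        (Monoid.CoprodI.of (i := (l.1 : ι)) l.2 : Monoid.CoprodI A)).prod ∉ K k := by
      intro q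
      by_contra hcon
      push Not at hcon
      have hg : WD_good K S (T.take (q + 1)) := by
        refine ⟨?_, ?_, ?_, hcon⟩
        · intro h
          have h3 := congrArg List.length h
          have hq := q.2
          rw [List.length_take, List.length_nil] at h3
          omega
        · intro l hl
          exact hone l (List.mem_cons_of_mem _ (List.mem_of_mem_take hl))
        · exact (hchain.tail).take _
      have := hmin _ hg
      have hq := q.2
      simp at this
      omega
    choose kk hkk using hTk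
    refine ⟨k₁ + ∑ q, kk q, ?_⟩
    intro k hk κ _ δ hδ h0 he hzero
    have := hK k
    have hk1 : (Monoid.CoprodI.of (i := (a.1 : ι)) a.2 : Monoid.CoprodI A) ∉ K k :=
      fun h => hk₁ (hanti (by omega) h)
    rw [WD_lift, List.map_cons, List.prod_cons, hδ, he] at hzero
    have hcoef := WD_coeff (K k) (fun i => (Monoid.CoprodI.of (i := i) : A i →* Monoid.CoprodI A))
      (a.1 : ι) κ δ hδ h0 he (T.map fun l => (⟨(l.1 : ι), l.2⟩ : Σ i, A i)) (by
        intro U hU hUne
        obtain ⟨U', hU', rfl⟩ : ∃ U', U' <+: T ∧ U = U'.map fun l => (⟨(l.1 : ι), l.2⟩ : Σ i, A i) := by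
          rw [List.prefix_iff_eq_take] at hU
          refine ⟨T.take U.length, List.take_prefix _ _, ?_⟩
          rw [hU, List.map_take]
          simp
        have hU'ne : U' ≠ [] := by
          rintro rfl
          exact hUne rfl
        have hlen : 0 < U'.length := List.length_pos_iff.2 hU'ne
        have hlen2 : U'.length ≤ T.length := hU'.length_le
        have h1 := hkk ⟨U'.length - 1, by omega⟩
        have h2 : T.take (U'.length - 1 + 1) = U' := by
          rw [Nat.sub_add_cancel hlen]
          exact (List.prefix_iff_eq_take.1 hU').symm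
        dsimp only at h1
        rw [h2] at h1
        intro hmem'
        apply h1
        refine hanti ?_ (?_ : _ ∈ K k)
        · have : kk ⟨U'.length - 1, by omega⟩ ≤ ∑ q, kk q :=
            Finset.single_le_sum (f := kk) (fun _ _ => Nat.zero_le _) (Finset.mem_univ _)
          omega
        · simpa [List.map_map, Function.comp_def] using hmem') (by
        intro b hb
        cases T with
        | nil => simp at hb
        | cons c T' =>
          simp at hb
          subst hb
          intro h
          have := (List.isChain_cons_cons.1 hchain).1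
          exact this (Subtype.ext h.symm))
    have hT : ((T.map fun l => (⟨(l.1 : ι), l.2⟩ : Σ i, A i)).map fun l =>
        (Monoid.CoprodI.of (i := l.1) l.2 : Monoid.CoprodI A)) =
        T.map fun l => (Monoid.CoprodI.of (i := (l.1 : ι)) l.2 : Monoid.CoprodI A) := by
      simp [List.map_map, Function.comp_def]
    have hz2 := congrArg (fun w => MonoidAlgebra.of κ _
      (QuotientGroup.mk' (K k) (Monoid.CoprodI.of (i := (a.1 : ι)) a.2))⁻¹ * w) hzero
    rw [mul_zero, mul_add, mul_sub, ← mul_assoc, ← map_mul, inv_mul_cancel, map_one, one_mul,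
      mul_one] at hz2
    have hz3 := congrArg (fun w => w.coeff 1) hz2
    rw [MonoidAlgebra.coeff_add, MonoidAlgebra.coeff_sub, Finsupp.add_apply, Finsupp.sub_apply,
      WD_one, WD_of] at hz3
    · have hcoef' : (δ ((T.map fun l =>
          (Monoid.CoprodI.of (i := (l.1 : ι)) l.2 : Monoid.CoprodI A)).prod)).coeff 1 = 0 := by
        rw [← hT]
        exact hcoef
      rw [hcoef'] at hz3
      simp at hz3
    · intro h
      exact hk1 ((QuotientGroup.eq_one_iff _).1 (inv_eq_one.1 h))

end Pool.Agent.H90.FS
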